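import Mathlib
import Pool.Agent.Q155.Simp.Defs
import Pool.Agent.Q155.Simp.Model
import Pool.Agent.Q155.Simp.Ref

/-!
# MP_902647_gt: a simplicial refinement with fewer vertices than the model

Half the difference body of the tetrahedron (the cuboctahedron) has 12 extreme points, and the model
on it has a simplicial refinement whose simplex has 8 vertices.
-/

set_option autoImplicit false
open Set Pool.Agent.Q155.Simp

namespace Pool.Agent.Results.MP_902647_gt.FewerVertices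

theorem result : ∃ (C : Set (Fin 4 → ℝ)) (T : Set (Fin 4 ⊕ Fin 4 → ℝ))
    (v : Fin 8 → (Fin 4 ⊕ Fin 4 → ℝ)) (Df : Set (Fin 4 ⊕ Fin 4 → ℝ))
    (f : (Fin 4 ⊕ Fin 4 → ℝ) → (Fin 4 → ℝ)) (Dg : Set (T → ℝ)) (g : (T → ℝ) → (C → ℝ)),
    IsPolytope C ∧ ¬ IsSimplex C ∧ (C.extremePoints ℝ).ncard = 12 ∧
    IsSimplexWith T v ∧ IsRefinement C T Df f Dg g := by
  classical
  obtain ⟨Dg, g, h⟩ := exists_refinement_Dif (n := 4) (by omega)
  have hc : Fintype.card (Fin 8) = Fintype.card (Fin 4 ⊕ Fin 4) := by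
    rw [Fintype.card_sum, Fintype.card_fin, Fintype.card_fin]
  obtain ⟨e⟩ := Fintype.card_eq.1 hc
  refine ⟨Dif 4, TT 4, fun k => Pi.single (e k) (1 : ℝ), DD 4, ff, Dg, g,
    isPolytope_Dif (by omega), not_isSimplex_Dif (by omega), ncard_extremePoints (by omega), ?_, h⟩
  have h1 := isSimplexWith_TT 4
  refine ⟨?_, ?_⟩
  · exact h1.1.comp_embedding e.toEmbedding
  · rw [h1.2]
    congr 1
    ext x
    constructor
    · rintro ⟨k, rfl⟩
      exact ⟨e.symm k, by simp⟩
    · rintro ⟨k, rfl⟩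
      exact ⟨e k, rfl⟩

end Pool.Agent.Results.MP_902647_gt.FewerVertices
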